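import Pool.Agent.H66.FA.T

/-!
# Left-invariant Finsler metrics on almost abelian groups: uniqueness of the vertical direction
-/

set_option autoImplicit false

open Matrix

namespace Pool.Agent.H41.FA

open Pool.Agent.H66.FA Pool.Agent.H63.Fins MeasureTheory Filter Topology

theorem pf_INJ (h1 : T_EUL) (h2 : T_REG) : T_INJ := by
  intro m L hL y z hy hz hyu hzu
  have hc : 0 < z 0 / y 0 := div_pos hz hy
  refine ⟨z 0 / y 0, hc, ?_⟩
  set c : ℝ := z 0 / y 0 with hcdef
  have hy0 : y ≠ 0 := by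
    rintro rfl
    simp at hy
  by_contra hne
  set u : V (m + 1) := z - c • y with hu
  have hu0 : u 0 = 0 := by
    have : c * y 0 = z 0 := by
      rw [hcdef]
      exact div_mul_cancel₀ _ hy.ne'
    simp [hu, this]
  have hune : u ≠ 0 := fun h => hne (sub_eq_zero.mp h)
  have hseg : ∀ t : ℝ, (c • y + t • u) ≠ 0 := by
    intro t h
    have h3 := congrFun h 0
    simp only [Pi.add_apply, Pi.smul_apply, smul_eq_mul, hu0, mul_zero, add_zero,
      Pi.zero_apply] at h3
    exact (mul_pos hc hy).ne' h3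
  obtain ⟨_, _, hd1, _, _, _, hloc⟩ := h2 (m + 1) L hL
  have hopen : IsOpen {w : V (m + 1) | w ≠ 0} := isOpen_ne
  have hder : ∀ t : ℝ, HasDerivAt (fun t : ℝ => d1 L (c • y + t • u) u)
      (d2 L (c • y + t • u) u u) t := by
    intro t
    have hdiff : DifferentiableAt ℝ (fun w => d1 L w u) (c • y + t • u) :=
      ((hd1 u).contDiffAt (hopen.mem_nhds (hseg t))).differentiableAt (by simp)
    have hcurve : HasDerivAt (fun t : ℝ => c • y + t • u) u t := by
      have h4 : HasDerivAt (fun t : ℝ => t • u) ((1 : ℝ) • u) t := (hasDerivAt_id t).smul_const u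
      rw [one_smul] at h4
      exact h4.const_add (c • y)
    have h5 := hdiff.hasFDerivAt.comp_hasDerivAt t hcurve
    rw [(hloc _ (hseg t)).2.1 u u] at h5
    exact h5
  have hg0 : d1 L (c • y + (0 : ℝ) • u) u = 0 := by
    rw [zero_smul, add_zero]
    rw [((h1 (m + 1) L hL y hy0).2.2.2.2 c hc).1 u, hyu u hu0, mul_zero]
  have hg1 : d1 L (c • y + (1 : ℝ) • u) u = 0 := by
    have h6 : c • y + (1 : ℝ) • u = z := by
      rw [one_smul, hu]
      abel
    rw [h6]
    exact hzu u hu0
  obtain ⟨t, _, ht⟩ := exists_hasDerivAt_eq_zero (f := fun t : ℝ => d1 L (c • y + t • u) u)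
    (f' := fun t => d2 L (c • y + t • u) u u) (zero_lt_one' ℝ)
    (fun t _ => (hder t).continuousAt.continuousWithinAt) (by simp only [hg0, hg1])
    (fun t _ => hder t)
  exact (hL.pos _ u (hseg t) hune).ne' ht

end Pool.Agent.H41.FA
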